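import Pool.Agent.W187.WQ.Fx

/-!
# WQ-ROW: one step of the table recursion
-/

set_option autoImplicit false

open Pool.Agent.W187.WQ

namespace Pool.Agent.W583.WQ

theorem ediv_bounds (x D : ℤ) (hD : 0 < D) :
    0 ≤ (x : ℝ) / (D : ℝ) - ((x / D : ℤ) : ℝ) ∧ (x : ℝ) / (D : ℝ) - ((x / D : ℤ) : ℝ) ≤ 1 := by
  have hD' : (0 : ℝ) < (D : ℝ) := by exact_mod_cast hD
  have h1 : (x / D) * D ≤ x := Int.ediv_mul_le x hD.ne'
  have h2 : x < (x / D + 1) * D := Int.lt_ediv_add_one_mul_self x hD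
  have h1' : ((x / D : ℤ) : ℝ) * (D : ℝ) ≤ (x : ℝ) := by exact_mod_cast h1
  have h2' : (x : ℝ) < (((x / D : ℤ) : ℝ) + 1) * (D : ℝ) := by exact_mod_cast h2
  constructor
  · rw [sub_nonneg, le_div_iff₀ hD']; exact h1'
  · rw [sub_le_iff_le_add', div_le_iff₀ hD']; linarith [h2'.le]

theorem row_entry (D s : ℤ) (sr ε M x y : ℝ) (a b : ℤ) (hD : 0 < D) (hε : 0 ≤ ε) (hεD : ε ≤ D)
    (hs : |(D : ℝ) * sr - (s : ℝ)| ≤ 1) (hsr : |sr| ≤ 2) (hx : |x| ≤ M)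
    (ha : |(D : ℝ) * x - (a : ℝ)| ≤ ε) (hb : |(D : ℝ) * y - (b : ℝ)| ≤ ε) :
    |(D : ℝ) * (y - sr * x) - ((b - s * a / D : ℤ) : ℝ)| ≤ 3 * ε + M + 2 := by
  have hD' : (0 : ℝ) < (D : ℝ) := by exact_mod_cast hD
  obtain ⟨h1, h2⟩ := ediv_bounds (s * a) D hD
  have e1 : (D : ℝ) * (y - sr * x) - ((b - s * a / D : ℤ) : ℝ) =
      ((D : ℝ) * y - (b : ℝ)) - sr * ((D : ℝ) * x - (a : ℝ)) -
        ((a : ℝ) / (D : ℝ)) * ((D : ℝ) * sr - (s : ℝ)) -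
        (((s * a : ℤ) : ℝ) / (D : ℝ) - ((s * a / D : ℤ) : ℝ)) := by
    push_cast
    field_simp
    ring
  have h3 : |sr * ((D : ℝ) * x - (a : ℝ))| ≤ 2 * ε := by
    rw [abs_mul]
    exact mul_le_mul hsr ha (abs_nonneg _) (by norm_num)
  have h4 : |(a : ℝ) / (D : ℝ)| ≤ M + 1 := by
    have e2 : (a : ℝ) / (D : ℝ) = x - ((D : ℝ) * x - (a : ℝ)) / (D : ℝ) := by
      field_simp; ring
    rw [e2]
    have h5 : |((D : ℝ) * x - (a : ℝ)) / (D : ℝ)| ≤ 1 := by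
      rw [abs_div, abs_of_pos hD', div_le_one hD']
      exact ha.trans hεD
    exact (abs_sub _ _).trans (add_le_add hx h5)
  have h6 : |((a : ℝ) / (D : ℝ)) * ((D : ℝ) * sr - (s : ℝ))| ≤ M + 1 := by
    rw [abs_mul]
    calc _ ≤ (M + 1) * 1 := mul_le_mul h4 hs (abs_nonneg _) ((abs_nonneg _).trans h4)
      _ = M + 1 := mul_one _
  rw [e1]
  rw [abs_le] at h3 h6 hb ⊢
  constructor <;> linarith [h3.1, h3.2, h6.1, h6.2, hb.1, hb.2]

theorem row : S_ROW := by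
  intro D s sr ε M g k l hD hε hεD hs hsr hg hl
  induction l generalizing k with
  | nil => exact trivial
  | cons a l ih =>
    cases l with
    | nil => exact trivial
    | cons b l =>
      exact ⟨row_entry D s sr ε M (g k) (g (k + 1)) a b hD hε hεD hs hsr (hg k) hl.1 hl.2.1,
        ih (k + 1) hl.2⟩

end Pool.Agent.W583.WQ
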